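import Pool.Agent.Helper92.TG.GoalsX
import Pool.Agent.Helper90.T3.SUBF

/-!
# Project TG, CM version, IPN: `ρ P` has coordinates in the field of the coordinates of `P`
-/

set_option autoImplicit false

namespace Pool.Agent.Helper45.TG.IPN

open WeierstrassCurve
open Pool.Agent.Helper29.BL Pool.Agent.Helper42.SG
open Pool.Agent.Helper60.T3 (WL zd IP)
open Pool.Agent.Helper42.TG (Endo)
open Pool.Agent.Helper90.T3.SUBF (ip_some)

noncomputable section

variable {K : Type} [Field K] [CharZero K] {W : Affine K} {F : Type} [Field F] [DecidableEq F]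
  [Algebra K F]

/-- the image of a point over `G` has coordinates in `G` -/
theorem ip_map (G : IntermediateField K F) [DecidableEq G] (Q : (WL G W).Point) :
    IP (G : Set F) (Affine.Point.map (W' := W) G.val Q : (WL F W).Point) := by
  rcases Q with _ | ⟨x, y, h⟩
  · exact Or.inl rfl
  · erw [Affine.Point.map_some]
    exact (ip_some _).2 ⟨x.2, y.2⟩

/-- a point with coordinates in `G` is the image of a point over `G` -/
theorem exists_map (G : IntermediateField K F) [DecidableEq G] {P : (WL F W).Point}
    (hP : IP (G : Set F) P) : ∃ Q : (WL G W).Point,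
      (Affine.Point.map (W' := W) G.val Q : (WL F W).Point) = P := by
  rcases P with _ | ⟨x, y, h⟩
  · exact ⟨0, map_zero _⟩
  · obtain ⟨hx, hy⟩ := (ip_some h).1 hP
    have h' : (WL G W).Nonsingular ⟨x, hx⟩ ⟨y, hy⟩ :=
      (Affine.baseChange_nonsingular (W := W) (f := G.val) G.val.injective
        (⟨x, hx⟩ : G) (⟨y, hy⟩ : G)).1 h
    refine ⟨Affine.Point.some _ _ h', ?_⟩
    erw [Affine.Point.map_some]
    rfl

theorem t : Pool.Agent.Helper92.TG.IPN := by
  intro K _ _ W ρ F _ _ _ G P hP
  classical
  obtain ⟨Q, rfl⟩ := exists_map G hP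
  rw [ρ.nat G F G.val Q]
  exact ip_map G _

end

end Pool.Agent.Helper45.TG.IPN
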